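import Mathlib
import Pool.Agent.Helper15.DimerBase

open MeasureTheory Set Filter Topology
open scoped ContDiff RealInnerProductSpace

namespace Helper20.Dimer

open Helper15.Dimer

variable {E : Type*} [NormedAddCommGroup E] [InnerProductSpace ℝ E] [FiniteDimensional ℝ E]
  [MeasurableSpace E] [BorelSpace E]

/-- A bounded measurable function times a continuous compactly supported one is integrable. -/
theorem integrable_bdd_mul (c : E → ℝ) (hc : Measurable c) (C : ℝ) (hC : ∀ x, |c x| ≤ C)
    (φ : E → ℝ) (hφ : Continuous φ) (hφc : HasCompactSupport φ) :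
    Integrable (fun x => c x * φ x) := by
  have h1 : Integrable φ := hφ.integrable_of_hasCompactSupport hφc
  exact h1.bdd_mul (c := C) hc.aestronglyMeasurable (Eventually.of_forall fun x => by
    simpa using hC x)

/-- Differentiation of `s ↦ ∫ c(x) φ(x + s V) dx`. -/
theorem hasDerivAt_shift (c : E → ℝ) (hc : Measurable c) (C : ℝ) (hC : ∀ x, |c x| ≤ C)
    (φ : E → ℝ) (hφ : ContDiff ℝ 1 φ) (hφc : HasCompactSupport φ) (V : E) (s : ℝ) :
    HasDerivAt (fun s : ℝ => ∫ x, c x * φ (x + s • V))
      (∫ x, c x * fderiv ℝ φ (x + s • V) V) s := by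
  have hdφ : Continuous (fderiv ℝ φ) := hφ.continuous_fderiv (by simp)
  have hdφc : HasCompactSupport (fderiv ℝ φ) := hφc.fderiv ℝ
  obtain ⟨M, hM⟩ := hdφ.bounded_above_of_compact_support hdφc
  have hC0 : 0 ≤ C := (abs_nonneg _).trans (hC 0)
  have hM0 : 0 ≤ M := (norm_nonneg _).trans (hM 0)
  obtain ⟨R, hR⟩ := (Metric.isBounded_iff_subset_closedBall (0 : E)).1 hφc.isCompact.isBounded
  have hzero : ∀ y : E, R < ‖y‖ → fderiv ℝ φ y = 0 := by
    intro y hy
    have : y ∉ tsupport φ := fun h => by
      have := hR h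
      rw [Metric.mem_closedBall, dist_zero_right] at this
      linarith
    have h2 : y ∉ tsupport (fderiv ℝ φ) := fun h => this (tsupport_fderiv_subset ℝ h)
    exact image_eq_zero_of_notMem_tsupport h2
  set R' := R + (|s| + 1) * ‖V‖ with hR'
  have hcont : ∀ s' : ℝ, Continuous fun x : E => x + s' • V := fun s' => by fun_prop
  refine (hasDerivAt_integral_of_dominated_loc_of_deriv_le
    (F := fun (s : ℝ) (x : E) => c x * φ (x + s • V))
    (F' := fun (s : ℝ) (x : E) => c x * fderiv ℝ φ (x + s • V) V)
    (bound := (Metric.closedBall (0 : E) R').indicator fun _ => C * (M * ‖V‖))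
    (Metric.ball_mem_nhds s one_pos) ?_ ?_ ?_ ?_ ?_ ?_).2
  · refine Eventually.of_forall fun s' => ?_
    exact (hc.mul ((hφ.continuous.comp (hcont s')).measurable)).aestronglyMeasurable
  · refine integrable_bdd_mul c hc C hC _ (hφ.continuous.comp (hcont s)) ?_
    exact hφc.comp_homeomorph (Homeomorph.addRight (s • V))
  · refine (hc.mul (Continuous.measurable ?_)).aestronglyMeasurable
    exact (hdφ.comp (hcont s)).clm_apply continuous_const
  · refine Eventually.of_forall fun x s' hs' => ?_
    rw [Metric.mem_ball, Real.dist_eq] at hs'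
    by_cases hx : x ∈ Metric.closedBall (0 : E) R'
    · rw [indicator_of_mem hx, norm_mul, Real.norm_eq_abs]
      refine mul_le_mul (hC x) ?_ (norm_nonneg _) hC0
      exact ((fderiv ℝ φ (x + s' • V)).le_opNorm V).trans
        (mul_le_mul_of_nonneg_right (hM _) (norm_nonneg _))
    · rw [indicator_of_notMem hx]
      rw [Metric.mem_closedBall, dist_zero_right, not_le] at hx
      have h1 : ‖x‖ ≤ ‖x + s' • V‖ + ‖s' • V‖ := by
        calc ‖x‖ = ‖(x + s' • V) - s' • V‖ := by rw [add_sub_cancel_right]
          _ ≤ _ := norm_sub_le _ _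
      have h2 : ‖s' • V‖ ≤ (|s| + 1) * ‖V‖ := by
        rw [norm_smul, Real.norm_eq_abs]
        refine mul_le_mul_of_nonneg_right ?_ (norm_nonneg _)
        have := abs_sub_abs_le_abs_sub s' s
        linarith
      rw [hzero _ (by linarith)]
      simp
  · rw [integrable_indicator_iff Metric.isClosed_closedBall.measurableSet]
    exact integrableOn_const (isCompact_closedBall _ _).measure_lt_top.ne
  · refine Eventually.of_forall fun x s' _ => ?_
    have h1 : HasFDerivAt φ (fderiv ℝ φ (x + s' • V)) (x + s' • V) :=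
      (hφ.differentiable (by simp) _).hasFDerivAt
    have h2 : HasDerivAt (fun r : ℝ => x + r • V) V s' := by
      simpa using ((hasDerivAt_id s').smul_const V).const_add x
    exact (h1.comp_hasDerivAt s' h2).const_mul (c x)

omit [FiniteDimensional ℝ E] [MeasurableSpace E] [BorelSpace E] in
theorem isOpen_segmentSet {Ω : Set E} (hΩ : IsOpen Ω) (t : ℝ) (D : E) :
    IsOpen {x : E | ∀ r ∈ Icc (0 : ℝ) 1, x + (r * t) • D ∈ Ω} := by
  rw [isOpen_iff_mem_nhds]
  intro x hx
  refine isCompact_Icc.eventually_forall_of_forall_eventually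
    (P := fun (y : E) (r : ℝ) => y + (r * t) • D ∈ Ω) ?_
  intro r hr
  have hcont : Continuous fun z : E × ℝ => z.1 + (z.2 * t) • D := by fun_prop
  exact hcont.continuousAt.eventually (hΩ.mem_nhds (hx r hr))

/-- A bounded measurable `c` with `c D` divergence free in `Ω` is constant along segments
parallel to `D` and contained in `Ω`. -/
theorem line_invariance (Ω : Set E) (hΩ : IsOpen Ω) (c : E → ℝ) (hc : Measurable c)
    (C : ℝ) (hC : ∀ x, |c x| ≤ C) (D : E)
    (hdiv : ∀ ψ : E → ℝ, Test ψ → tsupport ψ ⊆ Ω → ∫ x, c x * fderiv ℝ ψ x D = 0) (t : ℝ) :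
    ∀ᵐ x : E, (∀ r ∈ Icc (0 : ℝ) 1, x + (r * t) • D ∈ Ω) → c (x + t • D) = c x := by
  have hA := isOpen_segmentSet hΩ t D
  set A := {x : E | ∀ r ∈ Icc (0 : ℝ) 1, x + (r * t) • D ∈ Ω} with hAdef
  have hmeas : Measurable fun x : E => c (x + t • D) := hc.comp (measurable_id.add_const _)
  have hloc : LocallyIntegrable (fun x : E => c (x + t • D) - c x) volume := by
    refine (locallyIntegrable_const (μ := (volume : Measure E)) (C + C)).mono
      (hmeas.sub hc).aestronglyMeasurable ?_
    refine Eventually.of_forall fun x => ?_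
    have h0 : 0 ≤ C := (abs_nonneg _).trans (hC 0)
    rw [Real.norm_eq_abs, Real.norm_eq_abs, abs_of_nonneg (add_nonneg h0 h0)]
    exact (abs_sub _ _).trans (add_le_add (hC _) (hC _))
  have key := hA.ae_eq_zero_of_integral_contDiff_smul_eq_zero
    (f := fun x : E => c (x + t • D) - c x) (μ := volume) (hloc.locallyIntegrableOn _) ?_
  · filter_upwards [key] with x hx h
    have := hx h
    linarith
  intro φ hφ hφc hφA
  have hφ1 : ContDiff ℝ 1 φ := hφ.of_le (by exact_mod_cast le_top)
  set V : E := -(t • D) with hV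
  have hder : ∀ r : ℝ, HasDerivAt (fun s : ℝ => ∫ x, c x * φ (x + s • V))
      (∫ x, c x * fderiv ℝ φ (x + r • V) V) r :=
    fun r => hasDerivAt_shift c hc C hC φ hφ1 hφc V r
  have hzero : ∀ r ∈ Icc (0 : ℝ) 1, ∫ x, c x * fderiv ℝ φ (x + r • V) V = 0 := by
    intro r hr
    have h1 := hdiv (fun x => φ (x + r • V)) ⟨?_, ?_⟩ ?_
    · have h2 : ∀ x, c x * fderiv ℝ φ (x + r • V) V
          = (-t) * (c x * fderiv ℝ (fun x => φ (x + r • V)) x D) := by
        intro x
        rw [fderiv_comp_add_right, hV, map_neg, map_smul, smul_eq_mul]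
        ring
      simp_rw [h2]
      rw [integral_const_mul, h1, mul_zero]
    · exact hφ.comp (contDiff_id.add contDiff_const)
    · exact hφc.comp_homeomorph (Homeomorph.addRight (r • V))
    · intro x hx
      have h3 : x + r • V ∈ tsupport φ :=
        tsupport_comp_subset_preimage φ (f := fun x : E => x + r • V) (by fun_prop) hx
      have h4 := hφA h3 r hr
      have h5 : x + r • V + (r * t) • D = x := by
        rw [hV, smul_neg, smul_smul]
        abel
      rwa [h5] at h4
  have hconst := constant_of_has_deriv_right_zero (a := (0 : ℝ)) (b := 1)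
    (f := fun s : ℝ => ∫ x, c x * φ (x + s • V))
    (fun r _ => (hder r).continuousAt.continuousWithinAt)
    (fun r hr => by
      have := hder r
      rw [hzero r ⟨hr.1, hr.2.le⟩] at this
      exact this.hasDerivWithinAt) 1 ⟨zero_le_one, le_rfl⟩
  simp only [zero_smul, add_zero, one_smul] at hconst
  have hshift : ∫ x, c x * φ (x + V) = ∫ x, c (x + t • D) * φ x := by
    rw [← integral_add_right_eq_self (fun x => c x * φ (x + V)) (t • D)]
    congr 1
    funext x
    rw [hV, add_assoc, add_neg_cancel, add_zero]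
  have hi1 : Integrable fun x => c (x + t • D) * φ x :=
    integrable_bdd_mul _ hmeas C (fun x => hC _) φ hφ.continuous hφc
  have hi2 : Integrable fun x => c x * φ x :=
    integrable_bdd_mul _ hc C hC φ hφ.continuous hφc
  calc ∫ x, φ x • (c (x + t • D) - c x) = ∫ x, (c (x + t • D) * φ x - c x * φ x) := by
        congr 1; funext x; rw [smul_eq_mul]; ring
    _ = (∫ x, c (x + t • D) * φ x) - ∫ x, c x * φ x := integral_sub hi1 hi2
    _ = 0 := by rw [← hshift, hconst, sub_self]

end Helper20.Dimer
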