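import Mathlib
import Pool.Agent.Helper15.DimerBase
import Pool.Agent.Helper20.DimerLINE

open MeasureTheory Set Filter Topology
open scoped ContDiff RealInnerProductSpace Convolution

namespace Helper20.Dimer

open Helper15.Dimer

variable {E : Type*} [NormedAddCommGroup E] [InnerProductSpace ℝ E] [FiniteDimensional ℝ E]
  [MeasurableSpace E] [BorelSpace E]

/-- `x ↦ c x * A x (h x)` is integrable for `A` continuous with compact support. -/
theorem integrable_pair (c : E → ℝ) (hc : Measurable c) (M : ℝ) (hM : ∀ x, |c x| ≤ M)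
    (h : E → E) (hh : Measurable h) (C : ℝ) (hC : ∀ x, ‖h x‖ ≤ C)
    (A : E → (E →L[ℝ] ℝ)) (hA : Continuous A) (hAc : HasCompactSupport A) :
    Integrable (fun x => c x * A x (h x)) := by
  have h1 : Integrable (fun x => M * (‖A x‖ * C)) :=
    ((hA.norm.integrable_of_hasCompactSupport hAc.norm).mul_const C).const_mul M
  have hmeas : Measurable fun x => A x (h x) := by
    have : Continuous fun p : (E →L[ℝ] ℝ) × E => p.1 p.2 := isBoundedBilinearMap_apply.continuous
    exact this.measurable.comp (hA.measurable.prodMk hh)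
  refine h1.mono' (hc.mul hmeas).aestronglyMeasurable (Eventually.of_forall fun x => ?_)
  have hM0 : 0 ≤ M := (abs_nonneg _).trans (hM 0)
  rw [norm_mul, Real.norm_eq_abs]
  refine mul_le_mul (hM x) ?_ (norm_nonneg _) hM0
  exact ((A x).le_opNorm (h x)).trans (mul_le_mul_of_nonneg_left (hC x) (norm_nonneg _))

theorem integrable_pair' (h : E → E) (hh : Measurable h) (C : ℝ) (hC : ∀ x, ‖h x‖ ≤ C)
    (A : E → (E →L[ℝ] ℝ)) (hA : Continuous A) (hAc : HasCompactSupport A) :
    Integrable (fun x => A x (h x)) := by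
  simpa using integrable_pair (fun _ => 1) measurable_const 1 (by simp) h hh C hC A hA hAc

/-- Translation invariant functions are divergence free against `C¹` test functions. -/
theorem integral_mul_fderiv_eq_zero (U : Set E) (hU : IsOpen U) (F : E → ℝ) (hF : Measurable F)
    (M : ℝ) (hM : ∀ x, |F x| ≤ M) (D : E)
    (hinv : ∀ t : ℝ, ∀ᵐ x : E, (∀ r ∈ Icc (0 : ℝ) 1, x + (r * t) • D ∈ U) →
      F (x + t • D) = F x)
    (φ : E → ℝ) (hφ : ContDiff ℝ 1 φ) (hφc : HasCompactSupport φ) (hφU : tsupport φ ⊆ U) :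
    ∫ x, F x * fderiv ℝ φ x D = 0 := by
  have hder := hasDerivAt_shift F hF M hM φ hφ hφc D 0
  simp only [zero_smul, add_zero] at hder
  obtain ⟨δ, hδ, hδU⟩ := hφc.isCompact.exists_thickening_subset_open hU hφU
  have hconst : ∀ᶠ s : ℝ in 𝓝 0, ∫ x, F x * φ (x + s • D) = ∫ x, F x * φ x := by
    have h1 : ∀ᶠ s : ℝ in 𝓝 0, ‖s • D‖ < δ := by
      have : Tendsto (fun s : ℝ => ‖s • D‖) (𝓝 0) (𝓝 0) := by
        have h2 : Continuous fun s : ℝ => ‖s • D‖ := by fun_prop
        simpa using h2.tendsto 0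
      exact this.eventually (gt_mem_nhds hδ)
    filter_upwards [h1] with s hs
    rw [← integral_add_right_eq_self (fun x => F x * φ (x + s • D)) (-(s • D))]
    refine integral_congr_ae ?_
    filter_upwards [hinv (-s)] with x hx
    simp only [neg_add_cancel_right]
    by_cases hx0 : φ x = 0
    · rw [hx0, mul_zero, mul_zero]
    · have hxs : x ∈ tsupport φ := subset_tsupport _ hx0
      have := hx (fun r hr => hδU (Metric.mem_thickening_iff.2 ⟨x, hxs, ?_⟩))
      · rw [neg_smul] at this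
        rw [this]
      · rw [dist_eq_norm, add_sub_cancel_left, mul_neg, neg_smul, norm_neg, mul_smul, norm_smul,
          Real.norm_eq_abs, abs_of_nonneg hr.1]
        exact (mul_le_of_le_one_left (norm_nonneg _) hr.2).trans_lt hs
  have h0 : HasDerivAt (fun s : ℝ => ∫ x, F x * φ (x + s • D)) 0 0 :=
    (hasDerivAt_const (0 : ℝ) (∫ x, F x * φ x)).congr_of_eventuallyEq hconst
  exact hder.unique h0

/-- Divergence free against smooth test functions implies the same for `C¹` test functions. -/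
theorem div_zero_C1 (h : E → E) (hh : Measurable h) (C : ℝ) (hC : ∀ x, ‖h x‖ ≤ C)
    (hdivh : ∀ ψ : E → ℝ, Test ψ → ∫ x, fderiv ℝ ψ x (h x) = 0)
    (φ : E → ℝ) (hφ : ContDiff ℝ 1 φ) (hφc : HasCompactSupport φ) :
    ∫ x, fderiv ℝ φ x (h x) = 0 := by
  have hdφ : Continuous (fderiv ℝ φ) := hφ.continuous_fderiv (by simp)
  have hdφc : HasCompactSupport (fderiv ℝ φ) := hφc.fderiv ℝ
  have hC0 : 0 ≤ C := (norm_nonneg _).trans (hC 0)
  obtain ⟨R, hR⟩ := (Metric.isBounded_iff_subset_closedBall (0 : E)).1 hφc.isCompact.isBounded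
  set K := Metric.closedBall (0 : E) (R + 1) with hK
  have hKfin : volume K < ⊤ := (isCompact_closedBall _ _).measure_lt_top
  have key : ∀ η : ℝ, 0 < η → ‖∫ x, fderiv ℝ φ x (h x)‖ ≤ (η * C) * volume.real K := by
    intro η hη
    have huc := hdφc.uniformContinuous_of_continuous hdφ
    obtain ⟨δ, hδ, hδη⟩ := Metric.uniformContinuous_iff.1 huc η hη
    let b : ContDiffBump (0 : E) := ⟨min δ 1 / 2, min δ 1, by positivity, by
      have : 0 < min δ 1 := by positivity
      linarith⟩
    have hbloc : LocallyIntegrable (b.normed volume) volume :=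
      b.continuous_normed.locallyIntegrable
    set φb : E → ℝ := (b.normed volume ⋆[ContinuousLinearMap.lsmul ℝ ℝ, volume] φ) with hφb
    have hφbc : HasCompactSupport φb :=
      HasCompactSupport.convolution _ b.hasCompactSupport_normed hφc
    have hφbs : ContDiff ℝ ∞ φb :=
      b.hasCompactSupport_normed.contDiff_convolution_left _ (n := ⊤)
        b.contDiff_normed hφ.continuous.locallyIntegrable
    have hd : ∀ x, dist (fderiv ℝ φb x) (fderiv ℝ φ x) ≤ η := by
      intro x
      have h1 := (hφc.hasFDerivAt_convolution_right (ContinuousLinearMap.lsmul ℝ ℝ) hbloc hφ x).fderiv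
      have h2 : (b.normed volume ⋆[(ContinuousLinearMap.lsmul ℝ ℝ).precompR E, volume]
          fderiv ℝ φ) x
          = (b.normed volume ⋆[ContinuousLinearMap.lsmul ℝ ℝ, volume] fderiv ℝ φ) x := by
        congr 1
      rw [hφb, h1, h2]
      refine b.dist_normed_convolution_le hdφ.aestronglyMeasurable fun y hy => ?_
      refine (hδη (lt_of_lt_of_le (Metric.mem_ball.1 hy) ?_)).le
      exact min_le_left _ _
    have hz := hdivh φb ⟨hφbs, hφbc⟩
    have hi1 : Integrable fun x => fderiv ℝ φ x (h x) := integrable_pair' h hh C hC _ hdφ hdφc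
    have hi2 : Integrable fun x => fderiv ℝ φb x (h x) :=
      integrable_pair' h hh C hC _ (hφbs.continuous_fderiv (by simp)) (hφbc.fderiv ℝ)
    have heq : ∫ x, fderiv ℝ φ x (h x) = ∫ x, (fderiv ℝ φ x (h x) - fderiv ℝ φb x (h x)) := by
      rw [integral_sub hi1 hi2, hz, sub_zero]
    have hsupp : ∀ x, x ∉ K → fderiv ℝ φ x (h x) - fderiv ℝ φb x (h x) = 0 := by
      intro x hx
      rw [hK, Metric.mem_closedBall, dist_zero_right, not_le] at hx
      have h1 : x ∉ tsupport φ := fun h => by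
        have := hR h
        rw [Metric.mem_closedBall, dist_zero_right] at this
        linarith
      have h2 : x ∉ tsupport φb := by
        have hsub : tsupport φb ⊆ Metric.closedBall (0 : E) (R + 1) := by
          refine closure_minimal ?_ Metric.isClosed_closedBall
          refine (support_convolution_subset_swap _).trans ?_
          rintro _ ⟨u, hu, v, hv, rfl⟩
          have h3 := hR (subset_tsupport _ hu)
          have h4 : v ∈ Metric.ball (0 : E) b.rOut := by
            rw [← b.support_normed_eq (μ := volume)]; exact hv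
          rw [Metric.mem_closedBall, dist_zero_right] at h3 ⊢
          rw [Metric.mem_ball, dist_zero_right] at h4
          have h5 : b.rOut ≤ 1 := min_le_right _ _
          exact (norm_add_le _ _).trans (by linarith)
        intro h6
        have := hsub h6
        rw [Metric.mem_closedBall, dist_zero_right] at this
        linarith
      have h3 : fderiv ℝ φ x = 0 :=
        image_eq_zero_of_notMem_tsupport fun h => h1 (tsupport_fderiv_subset ℝ h)
      have h4 : fderiv ℝ φb x = 0 :=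
        image_eq_zero_of_notMem_tsupport fun h => h2 (tsupport_fderiv_subset ℝ h)
      rw [h3, h4]; simp
    rw [heq, ← setIntegral_eq_integral_of_forall_compl_eq_zero hsupp]
    refine norm_setIntegral_le_of_norm_le_const hKfin fun x _ => ?_
    have h1 : fderiv ℝ φ x (h x) - fderiv ℝ φb x (h x)
        = (fderiv ℝ φ x - fderiv ℝ φb x) (h x) := by simp
    rw [h1]
    refine (ContinuousLinearMap.le_opNorm _ _).trans
      (mul_le_mul ?_ (hC x) (norm_nonneg _) hη.le)
    have := hd x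
    rwa [dist_comm, dist_eq_norm] at this
  have h0 : ‖∫ x, fderiv ℝ φ x (h x)‖ ≤ 0 := by
    refine le_of_forall_pos_le_add fun ε hε => ?_
    have hv : 0 ≤ C * volume.real K := mul_nonneg hC0 measureReal_nonneg
    have := key (ε / (C * volume.real K + 1)) (by positivity)
    refine this.trans ?_
    rw [zero_add, mul_assoc, div_mul_eq_mul_div, div_le_iff₀ (by positivity)]
    nlinarith
  exact norm_le_zero_iff.1 h0

omit [FiniteDimensional ℝ E] [MeasurableSpace E] [BorelSpace E] in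
theorem cs_smul_left {u : E → ℝ} {A : E → (E →L[ℝ] ℝ)} (hA : HasCompactSupport A) :
    HasCompactSupport (fun x => u x • A x) := hA.mono fun x hx h => hx (by
      simp only [h, smul_zero])

omit [FiniteDimensional ℝ E] [MeasurableSpace E] [BorelSpace E] in
theorem cs_smul_right {u : E → ℝ} {A : E → (E →L[ℝ] ℝ)} (hu : HasCompactSupport u) :
    HasCompactSupport (fun x => u x • A x) := hu.mono fun x hx h => hx (by
      simp only [h, zero_smul])

omit [InnerProductSpace ℝ E] [FiniteDimensional ℝ E] [MeasurableSpace E] [BorelSpace E] in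
theorem cs_mul_right {u v : E → ℝ} (hu : HasCompactSupport u) :
    HasCompactSupport (fun x => u x * v x) := hu.mono fun x hx h => hx (by
      simp only [h, zero_mul])

/-- Smooth step function: `0` for `s ≤ -1`, `1` for `s ≥ 0`. -/
noncomputable def step (s : ℝ) : ℝ := Real.smoothTransition (s + 1)

theorem step_contDiff : ContDiff ℝ 1 step := by
  unfold step
  exact (Real.smoothTransition.contDiff (n := 1)).comp (contDiff_id.add contDiff_const)

theorem step_nonneg (s : ℝ) : 0 ≤ step s := Real.smoothTransition.nonneg _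
theorem step_le_one (s : ℝ) : step s ≤ 1 := Real.smoothTransition.le_one _
theorem step_one {s : ℝ} (hs : 0 ≤ s) : step s = 1 :=
  Real.smoothTransition.one_of_one_le (by linarith)
theorem step_zero {s : ℝ} (hs : s ≤ -1) : step s = 0 :=
  Real.smoothTransition.zero_of_nonpos (by linarith)
theorem deriv_step_nonneg (s : ℝ) : 0 ≤ deriv step s := by
  have hmono : Monotone step := fun a b hab => by
    unfold step
    exact Real.smoothTransition.monotone (by linarith)
  exact hmono.deriv_nonneg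
theorem deriv_step_zero {s : ℝ} (hs : 0 ≤ s) : deriv step s = 0 := by
  have : IsLocalMax step s := Eventually.of_forall fun y => by
    rw [step_one hs]; exact step_le_one y
  exact this.deriv_eq_zero

/-- The localised inequality. -/
theorem core_ineq {z : E} {ρ : ℝ} (f : E → ℝ) (hf : ContDiff ℝ 1 f) (D : E) (κ K : ℝ)
    (hκ : 0 < κ) (hκf : ∀ x ∈ Metric.ball z ρ, κ ≤ fderiv ℝ f x D)
    (hKf : ∀ x ∈ Metric.ball z ρ, ‖fderiv ℝ f x‖ ≤ K)
    (h : E → E) (hh : Measurable h) (C : ℝ) (hC : ∀ x, ‖h x‖ ≤ C)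
    (hdiv1 : ∀ φ : E → ℝ, ContDiff ℝ 1 φ → HasCompactSupport φ → ∫ x, fderiv ℝ φ x (h x) = 0)
    (hf0 : ∀ x ∈ Metric.ball z ρ, 0 ≤ f x → h x = 0)
    (a : E → ℝ) (ha : Measurable a) (C' : ℝ) (hC' : ∀ x, |a x| ≤ C')
    (hainv : ∀ t : ℝ, ∀ᵐ x : E, (∀ r ∈ Icc (0 : ℝ) 1, x + (r * t) • D ∈ Metric.ball z ρ) →
      a (x + t • D) = a x)
    (hah : ∀ᵐ x : E, x ∈ Metric.ball z ρ → f x < 0 → a x ≠ 0 → h x = a x • D)
    (S : E → ℝ) (hS : ContDiff ℝ 1 S) (hSC : ∀ x, |S x| ≤ C')
    (hSinv : ∀ t : ℝ, ∀ᵐ x : E, (∀ r ∈ Icc (0 : ℝ) 1, x + (r * t) • D ∈ Metric.ball z ρ) →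
      S (x + t • D) = S x)
    (ψ : E → ℝ) (hψ : ContDiff ℝ 1 ψ) (hψc : HasCompactSupport ψ)
    (hψB : tsupport ψ ⊆ Metric.ball z ρ)
    (ψ₀ : E → ℝ) (hψ₀ : ContDiff ℝ 1 ψ₀) (hψ₀c : HasCompactSupport ψ₀)
    (hψ₀B : tsupport ψ₀ ⊆ Metric.ball z ρ) (hψψ₀ : ∀ x, |ψ x| ≤ ψ₀ x)
    (M₁ : ℝ) (hM₁ : ∀ x, |fderiv ℝ ψ₀ x D| ≤ M₁) :
    |∫ x, {x | 0 ≤ f x}.indicator (fun x => a x ^ 2) x * fderiv ℝ ψ x D| ≤
      (C * K / κ) * (M₁ * ∫ x in Metric.ball z ρ, |S x - a x|) := by
  have hC0 : 0 ≤ C := (norm_nonneg _).trans (hC 0)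
  have hC'0 : 0 ≤ C' := (abs_nonneg _).trans (hC' 0)
  -- the cutoffs
  set T : ℕ → E → ℝ := fun m x => step (((m : ℝ) + 1) * f x) with hT
  set w : ℕ → E → ℝ := fun m x => deriv step (((m : ℝ) + 1) * f x) * ((m : ℝ) + 1) with hw
  have hTc : ∀ m, ContDiff ℝ 1 (T m) := fun m => step_contDiff.comp (contDiff_const.mul hf)
  have hT0 : ∀ m x, 0 ≤ T m x := fun m x => step_nonneg _
  have hT1 : ∀ m x, T m x ≤ 1 := fun m x => step_le_one _
  have hTabs : ∀ m x, |T m x| ≤ 1 := fun m x => abs_le.2 ⟨by linarith [hT0 m x], hT1 m x⟩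
  have hwc : ∀ m, Continuous (w m) := fun m =>
    ((step_contDiff.continuous_deriv le_rfl).comp (continuous_const.mul hf.continuous)).mul
      continuous_const
  have hw0 : ∀ m x, 0 ≤ w m x := fun m x => mul_nonneg (deriv_step_nonneg _) (by positivity)
  have hwz : ∀ m x, 0 ≤ f x → w m x = 0 := fun m x hx => by
    simp only [hw]
    rw [deriv_step_zero (mul_nonneg (by positivity) hx), zero_mul]
  have hTf : ∀ m x, HasFDerivAt (T m) (w m x • fderiv ℝ f x) x := by
    intro m x
    have h1 : HasDerivAt step (deriv step (((m : ℝ) + 1) * f x)) (((m : ℝ) + 1) * f x) :=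
      (step_contDiff.differentiable (by simp) _).hasDerivAt
    have h2 : HasFDerivAt (fun x => ((m : ℝ) + 1) * f x) (((m : ℝ) + 1) • fderiv ℝ f x) x :=
      ((hf.differentiable (by simp) x).hasFDerivAt).const_mul _
    have h3 := h1.comp_hasFDerivAt x h2
    rw [smul_smul] at h3
    exact h3
  have hff : Continuous (fderiv ℝ f) := hf.continuous_fderiv (by simp)
  have hψS : ContDiff ℝ 1 (fun y => ψ y * S y) := hψ.mul hS
  have hψSc : HasCompactSupport (fun y => ψ y * S y) := cs_mul_right hψc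
  have hmulf : ∀ (g : E → ℝ), ContDiff ℝ 1 g → ∀ m x,
      fderiv ℝ (fun y => g y * T m y) x = (g x * w m x) • fderiv ℝ f x + T m x • fderiv ℝ g x := by
    intro g hg m x
    have h1 : HasFDerivAt (fun y => g y * T m y)
        (g x • (w m x • fderiv ℝ f x) + T m x • fderiv ℝ g x) x :=
      (hg.differentiable (by simp) x).hasFDerivAt.mul (hTf m x)
    rw [h1.fderiv, smul_smul]
  -- integrability helpers
  have hS_meas : Measurable S := hS.continuous.measurable
  have hG_meas : Measurable fun x => |S x - a x| := by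
    simpa [Real.norm_eq_abs] using (hS_meas.sub ha).norm
  have hG_bd : ∀ x, |(|S x - a x|)| ≤ C' + C' := fun x => by
    rw [abs_abs]; exact (abs_sub _ _).trans (add_le_add (hSC x) (hC' x))
  have ha2_meas : Measurable fun x => a x ^ 2 := ha.pow_const 2
  have ha2_bd : ∀ x, |a x ^ 2| ≤ C' ^ 2 := fun x => by
    rw [abs_pow]; exact pow_le_pow_left₀ (abs_nonneg _) (hC' x) 2
  -- identity X
  have hX : ∀ m, (∫ x, T m x * fderiv ℝ (fun y => ψ y * S y) x (h x)) +
      ∫ x, (ψ x * S x * w m x) * fderiv ℝ f x (h x) = 0 := by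
    intro m
    have h1 := hdiv1 (fun x => (ψ x * S x) * T m x) (hψS.mul (hTc m)) (cs_mul_right hψSc)
    have h2 : ∀ x, fderiv ℝ (fun y => ψ y * S y * T m y) x (h x)
        = (ψ x * S x * w m x) * fderiv ℝ f x (h x)
          + T m x * fderiv ℝ (fun y => ψ y * S y) x (h x) := by
      intro x
      rw [hmulf _ hψS m x]
      simp
    simp_rw [h2] at h1
    rw [integral_add, add_comm] at h1
    · exact h1
    · exact integrable_pair' h hh C hC (fun x => (ψ x * S x * w m x) • fderiv ℝ f x)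
        (((hψS.continuous).mul (hwc m)).smul hff) (cs_smul_right (cs_mul_right hψSc))
    · exact integrable_pair' h hh C hC (fun x => (T m x) • fderiv ℝ (fun y => ψ y * S y) x)
        ((hTc m).continuous.smul (hψS.continuous_fderiv (by simp)))
        (cs_smul_left (hψSc.fderiv ℝ))
  -- general invariance identity
  have hinvI : ∀ (F : E → ℝ) (M : ℝ), Measurable F → (∀ x, |F x| ≤ M) →
      (∀ t : ℝ, ∀ᵐ x : E, (∀ r ∈ Icc (0 : ℝ) 1, x + (r * t) • D ∈ Metric.ball z ρ) →
        F (x + t • D) = F x) →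
      ∀ g : E → ℝ, ContDiff ℝ 1 g → HasCompactSupport g → tsupport g ⊆ Metric.ball z ρ → ∀ m,
      (∫ x, F x * (T m x * fderiv ℝ g x D)) +
        ∫ x, F x * ((g x * w m x) * fderiv ℝ f x D) = 0 := by
    intro F M hF hFM hFinv g hg hgc hgB m
    have h1 := integral_mul_fderiv_eq_zero (Metric.ball z ρ) Metric.isOpen_ball F hF M hFM D hFinv
      (fun x => g x * T m x) (hg.mul (hTc m)) (cs_mul_right hgc)
      ((tsupport_mul_subset_left (f := g) (g := T m)).trans hgB)
    have h2 : ∀ x, F x * fderiv ℝ (fun y => g y * T m y) x D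
        = F x * ((g x * w m x) * fderiv ℝ f x D) + F x * (T m x * fderiv ℝ g x D) := by
      intro x
      rw [hmulf _ hg m x]
      simp
      ring
    simp_rw [h2] at h1
    rw [integral_add, add_comm] at h1
    · exact h1
    · exact integrable_pair F hF M hFM (fun _ => D) measurable_const ‖D‖ (fun _ => le_rfl)
        (fun x => (g x * w m x) • fderiv ℝ f x)
        (((hg.continuous).mul (hwc m)).smul hff) (cs_smul_right (cs_mul_right hgc))
    · exact integrable_pair F hF M hFM (fun _ => D) measurable_const ‖D‖ (fun _ => le_rfl)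
        (fun x => (T m x) • fderiv ℝ g x)
        ((hTc m).continuous.smul (hg.continuous_fderiv (by simp)))
        (cs_smul_left (hgc.fderiv ℝ))
  have hY := hinvI (fun x => a x ^ 2) (C' ^ 2) ha2_meas ha2_bd (fun t => by
    filter_upwards [hainv t] with x hx hr
    rw [hx hr]) ψ hψ hψc hψB
  have hZ := hinvI (fun x => |S x - a x|) (C' + C') hG_meas hG_bd (fun t => by
    filter_upwards [hainv t, hSinv t] with x hx hx' hr
    rw [hx hr, hx' hr]) ψ₀ hψ₀ hψ₀c hψ₀B
  -- the key pointwise identity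
  have hYh : ∀ m, ∫ x, a x ^ 2 * ((ψ x * w m x) * fderiv ℝ f x D)
      = ∫ x, a x * ((ψ x * w m x) * fderiv ℝ f x (h x)) := by
    intro m
    refine integral_congr_ae ?_
    filter_upwards [hah] with x hx
    by_cases hψx : ψ x = 0
    · simp [hψx]
    have hxB : x ∈ Metric.ball z ρ := hψB (subset_tsupport _ hψx)
    by_cases hfx : f x < 0
    · by_cases hax : a x = 0
      · simp [hax]
      · rw [hx hxB hfx hax, map_smul, smul_eq_mul]
        ring
    · simp [hwz m x (not_lt.1 hfx)]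
  have hmain : ∀ m, |∫ x, a x ^ 2 * (T m x * fderiv ℝ ψ x D)| ≤
      |∫ x, T m x * fderiv ℝ (fun y => ψ y * S y) x (h x)| +
      (C * K / κ) * (M₁ * ∫ x in Metric.ball z ρ, |S x - a x|) := by
    intro m
    have hX' := hX m
    have hY' := hY m
    have hZ' := hZ m
    have hi1 : Integrable fun x => (ψ x * S x * w m x) * fderiv ℝ f x (h x) :=
      integrable_pair' h hh C hC (fun x => (ψ x * S x * w m x) • fderiv ℝ f x)
        (((hψS.continuous).mul (hwc m)).smul hff) (cs_smul_right (cs_mul_right hψSc))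
    have hi2 : Integrable fun x => a x * ((ψ x * w m x) * fderiv ℝ f x (h x)) :=
      integrable_pair a ha C' hC' h hh C hC (fun x => (ψ x * w m x) • fderiv ℝ f x)
        (((hψ.continuous).mul (hwc m)).smul hff) (cs_smul_right (cs_mul_right hψc))
    have hi3 : Integrable fun x => |S x - a x| * ((ψ₀ x * w m x) * fderiv ℝ f x D) :=
      integrable_pair _ hG_meas (C' + C') hG_bd (fun _ => D) measurable_const ‖D‖ (fun _ => le_rfl)
        (fun x => (ψ₀ x * w m x) • fderiv ℝ f x)
        (((hψ₀.continuous).mul (hwc m)).smul hff) (cs_smul_right (cs_mul_right hψ₀c))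
    have hdiff : |(∫ x, (ψ x * S x * w m x) * fderiv ℝ f x (h x)) -
        ∫ x, a x * ((ψ x * w m x) * fderiv ℝ f x (h x))| ≤
        (C * K / κ) * ∫ x, |S x - a x| * ((ψ₀ x * w m x) * fderiv ℝ f x D) := by
      rw [← integral_sub hi1 hi2, ← integral_const_mul, ← Real.norm_eq_abs]
      refine norm_integral_le_of_norm_le (hi3.const_mul _) (Eventually.of_forall fun x => ?_)
      have hxe : ψ x * S x * w m x * fderiv ℝ f x (h x) - a x * (ψ x * w m x * fderiv ℝ f x (h x))
          = (S x - a x) * (ψ x * w m x * fderiv ℝ f x (h x)) := by ring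
      rw [hxe, Real.norm_eq_abs, abs_mul, abs_mul, abs_mul, abs_of_nonneg (hw0 m x)]
      by_cases hψx : ψ₀ x = 0
      · have hψ0 : ψ x = 0 := abs_nonpos_iff.1 ((hψψ₀ x).trans hψx.le)
        simp [hψx, hψ0]
      have hxB : x ∈ Metric.ball z ρ := hψ₀B (subset_tsupport _ hψx)
      have hK0 : 0 ≤ K := (norm_nonneg _).trans (hKf x hxB)
      have h1 : |fderiv ℝ f x (h x)| ≤ (C * K / κ) * fderiv ℝ f x D := by
        have h2 : |fderiv ℝ f x (h x)| ≤ K * C :=
          ((fderiv ℝ f x).le_opNorm (h x)).trans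
            (mul_le_mul (hKf x hxB) (hC x) (norm_nonneg _) hK0)
        have h3 : C * K / κ * κ ≤ C * K / κ * fderiv ℝ f x D :=
          mul_le_mul_of_nonneg_left (hκf x hxB) (by positivity)
        rw [div_mul_cancel₀ _ hκ.ne'] at h3
        linarith
      have h4 : 0 ≤ |S x - a x| * w m x := mul_nonneg (abs_nonneg _) (hw0 m x)
      have h5 : |ψ x| * |fderiv ℝ f x (h x)| ≤ ψ₀ x * ((C * K / κ) * fderiv ℝ f x D) :=
        mul_le_mul (hψψ₀ x) h1 (abs_nonneg _) ((abs_nonneg _).trans (hψψ₀ x))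
      calc |S x - a x| * (|ψ x| * w m x * |fderiv ℝ f x (h x)|)
          = (|S x - a x| * w m x) * (|ψ x| * |fderiv ℝ f x (h x)|) := by ring
        _ ≤ (|S x - a x| * w m x) * (ψ₀ x * ((C * K / κ) * fderiv ℝ f x D)) :=
            mul_le_mul_of_nonneg_left h5 h4
        _ = C * K / κ * (|S x - a x| * (ψ₀ x * w m x * fderiv ℝ f x D)) := by ring
    have hZb : ∫ x, |S x - a x| * ((ψ₀ x * w m x) * fderiv ℝ f x D) ≤
        M₁ * ∫ x in Metric.ball z ρ, |S x - a x| := by
      have h1 : ∫ x, |S x - a x| * ((ψ₀ x * w m x) * fderiv ℝ f x D)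
          = - ∫ x, |S x - a x| * (T m x * fderiv ℝ ψ₀ x D) := by linarith
      have hsupp : ∀ x, x ∉ Metric.ball z ρ → |S x - a x| * (T m x * fderiv ℝ ψ₀ x D) = 0 := by
        intro x hx
        have : fderiv ℝ ψ₀ x = 0 := image_eq_zero_of_notMem_tsupport
          fun h => hx (hψ₀B (tsupport_fderiv_subset ℝ h))
        simp [this]
      rw [h1, ← setIntegral_eq_integral_of_forall_compl_eq_zero hsupp, ← integral_neg,
        ← integral_const_mul]
      have hGi : IntegrableOn (fun x => |S x - a x|) (Metric.ball z ρ) volume := by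
        refine Measure.integrableOn_of_bounded (M := C' + C') ?_ hG_meas.aestronglyMeasurable
          (Eventually.of_forall fun x => ?_)
        · exact Metric.isBounded_ball.measure_lt_top.ne
        · exact hG_bd x
      refine integral_mono_ae ?_ (hGi.const_mul M₁) (Eventually.of_forall fun x => ?_)
      · refine Integrable.neg (Integrable.integrableOn ?_)
        exact integrable_pair _ hG_meas (C' + C') hG_bd (fun _ => D) measurable_const ‖D‖
          (fun _ => le_rfl) (fun x => (T m x) • fderiv ℝ ψ₀ x)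
          ((hTc m).continuous.smul (hψ₀.continuous_fderiv (by simp)))
          (cs_smul_left (hψ₀c.fderiv ℝ))
      · simp only
        have h2 : -(|S x - a x| * (T m x * fderiv ℝ ψ₀ x D))
            = |S x - a x| * (T m x * (-fderiv ℝ ψ₀ x D)) := by ring
        rw [h2, mul_comm M₁]
        refine mul_le_mul_of_nonneg_left ?_ (abs_nonneg _)
        have h3 : -fderiv ℝ ψ₀ x D ≤ M₁ := (neg_le_abs _).trans (hM₁ x)
        have h4 : 0 ≤ M₁ := (abs_nonneg _).trans (hM₁ x)
        calc T m x * (-fderiv ℝ ψ₀ x D) ≤ T m x * M₁ := mul_le_mul_of_nonneg_left h3 (hT0 m x)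
          _ ≤ 1 * M₁ := mul_le_mul_of_nonneg_right (hT1 m x) h4
          _ = M₁ := one_mul _
    have hCK : (0 : ℝ) ≤ C * K / κ ∨ ∫ x, |S x - a x| * ((ψ₀ x * w m x) * fderiv ℝ f x D) = 0 := by
      by_cases hB : (Metric.ball z ρ).Nonempty
      · obtain ⟨x, hx⟩ := hB
        have hK0 : 0 ≤ K := (norm_nonneg _).trans (hKf x hx)
        left; positivity
      · right
        have : ∀ x, ψ₀ x = 0 := fun x => by
          by_contra hne
          exact hB ⟨x, hψ₀B (subset_tsupport _ hne)⟩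
        simp [this]
    have hYh' := hYh m
    set X1 := ∫ x, T m x * fderiv ℝ (fun y => ψ y * S y) x (h x)
    set X2 := ∫ x, (ψ x * S x * w m x) * fderiv ℝ f x (h x)
    set Y1 := ∫ x, a x ^ 2 * (T m x * fderiv ℝ ψ x D)
    set Y2 := ∫ x, a x ^ 2 * ((ψ x * w m x) * fderiv ℝ f x D)
    set Y3 := ∫ x, a x * ((ψ x * w m x) * fderiv ℝ f x (h x))
    set Z2 := ∫ x, |S x - a x| * ((ψ₀ x * w m x) * fderiv ℝ f x D)
    have hB0 : (C * K / κ) * Z2 ≤ (C * K / κ) * (M₁ * ∫ x in Metric.ball z ρ, |S x - a x|) := by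
      rcases hCK with hCK | hCK
      · exact mul_le_mul_of_nonneg_left hZb hCK
      · by_cases hB : (Metric.ball z ρ).Nonempty
        · obtain ⟨x, hx⟩ := hB
          have hK0 : 0 ≤ K := (norm_nonneg _).trans (hKf x hx)
          exact mul_le_mul_of_nonneg_left hZb (by positivity)
        · rw [not_nonempty_iff_eq_empty] at hB
          rw [hB] at hZb ⊢
          rw [hCK]
          simp
    have h1 : Y1 = X1 + (X2 - Y3) := by linarith
    calc |Y1| = |X1 + (X2 - Y3)| := by rw [h1]
      _ ≤ |X1| + |X2 - Y3| := abs_add_le _ _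
      _ ≤ _ := by linarith
  -- the limit
  have hTlim : ∀ x, Tendsto (fun m => T m x) atTop (𝓝 (if 0 ≤ f x then 1 else 0)) := by
    intro x
    by_cases hfx : 0 ≤ f x
    · rw [if_pos hfx]
      refine tendsto_const_nhds.congr fun m => ?_
      exact (step_one (mul_nonneg (by positivity) hfx)).symm
    · rw [if_neg hfx]
      rw [not_le] at hfx
      obtain ⟨N, hN⟩ := exists_nat_gt (-1 / f x)
      refine tendsto_const_nhds.congr' ?_
      filter_upwards [eventually_ge_atTop N] with m hm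
      refine (step_zero ?_).symm
      have h1 : (-1 / f x) < (m : ℝ) + 1 := by
        have : (N : ℝ) ≤ m := by exact_mod_cast hm
        linarith
      rw [div_lt_iff_of_neg hfx] at h1
      linarith
  have hL1 : Tendsto (fun m => ∫ x, a x ^ 2 * (T m x * fderiv ℝ ψ x D)) atTop
      (𝓝 (∫ x, {x | 0 ≤ f x}.indicator (fun x => a x ^ 2) x * fderiv ℝ ψ x D)) := by
    have hψ'c := hψ.continuous_fderiv (n := 1) (by simp)
    refine tendsto_integral_of_dominated_convergence
      (fun x => C' ^ 2 * (‖fderiv ℝ ψ x‖ * ‖D‖)) ?_ ?_ ?_ ?_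
    · intro m
      have := integrable_pair (fun x => a x ^ 2) ha2_meas (C' ^ 2) ha2_bd (fun _ => D)
        measurable_const ‖D‖ (fun _ => le_rfl) (fun x => (T m x) • fderiv ℝ ψ x)
        ((hTc m).continuous.smul hψ'c) (cs_smul_left (hψc.fderiv ℝ))
      exact this.aestronglyMeasurable
    · exact ((hψ'c.norm.integrable_of_hasCompactSupport (hψc.fderiv ℝ).norm).mul_const _).const_mul _
    · intro m
      refine Eventually.of_forall fun x => ?_
      rw [norm_mul, norm_mul, Real.norm_eq_abs, Real.norm_eq_abs]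
      refine mul_le_mul (ha2_bd x) ?_ (by positivity) (by positivity)
      calc |T m x| * ‖fderiv ℝ ψ x D‖ ≤ 1 * (‖fderiv ℝ ψ x‖ * ‖D‖) :=
            mul_le_mul (hTabs m x) ((fderiv ℝ ψ x).le_opNorm D) (norm_nonneg _) zero_le_one
        _ = _ := one_mul _
    · refine Eventually.of_forall fun x => ?_
      have h1 := ((hTlim x).mul_const (fderiv ℝ ψ x D)).const_mul (a x ^ 2)
      convert h1 using 2
      by_cases hfx : 0 ≤ f x
      · rw [indicator_of_mem (show x ∈ {x | 0 ≤ f x} from hfx), if_pos hfx, one_mul]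
      · rw [indicator_of_notMem (show x ∉ {x | 0 ≤ f x} from hfx), if_neg hfx]
        simp
  have hL2 : Tendsto (fun m => ∫ x, T m x * fderiv ℝ (fun y => ψ y * S y) x (h x)) atTop
      (𝓝 0) := by
    have hψ'c := hψS.continuous_fderiv (n := 1) (by simp)
    have h0 : (0 : ℝ) = ∫ _ : E, (0 : ℝ) := by simp
    rw [h0]
    refine tendsto_integral_of_dominated_convergence
      (fun x => ‖fderiv ℝ (fun y => ψ y * S y) x‖ * C) ?_ ?_ ?_ ?_
    · intro m
      have := integrable_pair' h hh C hC (fun x => (T m x) • fderiv ℝ (fun y => ψ y * S y) x)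
        ((hTc m).continuous.smul hψ'c) (cs_smul_left (hψSc.fderiv ℝ))
      exact this.aestronglyMeasurable
    · exact (hψ'c.norm.integrable_of_hasCompactSupport (hψSc.fderiv ℝ).norm).mul_const _
    · intro m
      refine Eventually.of_forall fun x => ?_
      rw [norm_mul, Real.norm_eq_abs]
      calc |T m x| * ‖fderiv ℝ (fun y => ψ y * S y) x (h x)‖
            ≤ 1 * (‖fderiv ℝ (fun y => ψ y * S y) x‖ * C) :=
            mul_le_mul (hTabs m x) (((fderiv ℝ (fun y => ψ y * S y) x).le_opNorm (h x)).trans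
              (mul_le_mul_of_nonneg_left (hC x) (norm_nonneg _))) (norm_nonneg _) zero_le_one
        _ = _ := one_mul _
    · refine Eventually.of_forall fun x => ?_
      have h1 := (hTlim x).mul_const (fderiv ℝ (fun y => ψ y * S y) x (h x))
      convert h1 using 2
      by_cases hfx : 0 ≤ f x
      · rw [if_pos hfx, one_mul]
        by_cases hxB : x ∈ Metric.ball z ρ
        · rw [hf0 x hxB hfx, map_zero]
        · have : fderiv ℝ (fun y => ψ y * S y) x = 0 := image_eq_zero_of_notMem_tsupport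
            fun h => hxB (hψB (tsupport_mul_subset_left (f := ψ) (g := S)
              (tsupport_fderiv_subset ℝ h)))
          rw [this]; simp
      · rw [if_neg hfx, zero_mul]
  have hL3 := (hL2.abs).add_const ((C * K / κ) * (M₁ * ∫ x in Metric.ball z ρ, |S x - a x|))
  rw [abs_zero, zero_add] at hL3
  exact le_of_tendsto_of_tendsto' hL1.abs hL3 hmain

/-- Mollification of a bounded measurable function, translated by `-V`. -/
noncomputable def moll (b : ContDiffBump (0 : E)) (c : E → ℝ) (V : E) (x : E) : ℝ :=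
  (b.normed volume ⋆[ContinuousLinearMap.lsmul ℝ ℝ, volume] c) (x - V)

theorem locallyIntegrable_bdd (c : E → ℝ) (hc : Measurable c) (C : ℝ) (hC : ∀ x, |c x| ≤ C) :
    LocallyIntegrable c volume := by
  refine (locallyIntegrable_const (μ := (volume : Measure E)) C).mono
    hc.aestronglyMeasurable (Eventually.of_forall fun x => ?_)
  rw [Real.norm_eq_abs, Real.norm_eq_abs]
  exact (hC x).trans (le_abs_self _)

theorem moll_contDiff (b : ContDiffBump (0 : E)) (c : E → ℝ) (hc : Measurable c) (C : ℝ)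
    (hC : ∀ x, |c x| ≤ C) (V : E) : ContDiff ℝ 1 (moll b c V) := by
  have h1 : ContDiff ℝ 1 (b.normed volume ⋆[ContinuousLinearMap.lsmul ℝ ℝ, volume] c) :=
    b.hasCompactSupport_normed.contDiff_convolution_left _ (n := 1)
      b.contDiff_normed (locallyIntegrable_bdd c hc C hC)
  exact h1.comp (contDiff_id.sub contDiff_const)

theorem moll_bdd (b : ContDiffBump (0 : E)) (c : E → ℝ) (C : ℝ)
    (hC : ∀ x, |c x| ≤ C) (V : E) (x : E) : |moll b c V x| ≤ C := by
  unfold moll
  rw [convolution_def, ← Real.norm_eq_abs]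
  have h1 : ∀ u, ‖(ContinuousLinearMap.lsmul ℝ ℝ (b.normed volume u)) (c (x - V - u))‖
      ≤ b.normed volume u * C := by
    intro u
    rw [ContinuousLinearMap.lsmul_apply, norm_smul, Real.norm_eq_abs,
      abs_of_nonneg (b.nonneg_normed u)]
    exact mul_le_mul_of_nonneg_left (hC _) (b.nonneg_normed u)
  refine (norm_integral_le_of_norm_le (b.integrable_normed.mul_const C)
    (Eventually.of_forall h1)).trans ?_
  rw [integral_mul_const, b.integral_normed, one_mul]

theorem moll_inv (b : ContDiffBump (0 : E)) (c : E → ℝ) (V D z : E) (ρ : ℝ) (Ω : Set E)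
    (hinv : ∀ t : ℝ, ∀ᵐ x : E, (∀ r ∈ Icc (0 : ℝ) 1, x + (r * t) • D ∈ Ω) →
      c (x + t • D) = c x)
    (hb : b.rOut ≤ ρ) (hΩ : Metric.ball (z - V) (2 * ρ) ⊆ Ω) (t : ℝ) (x : E)
    (hx : ∀ r ∈ Icc (0 : ℝ) 1, x + (r * t) • D ∈ Metric.ball z ρ) :
    moll b c V (x + t • D) = moll b c V x := by
  unfold moll
  rw [convolution_def, convolution_def]
  refine integral_congr_ae ?_
  have h1 := (Measure.measurePreserving_sub_left (volume : Measure E) (x - V)).quasiMeasurePreserving.ae
    (hinv t)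
  filter_upwards [h1] with u hu
  by_cases hbu : b.normed volume u = 0
  · rw [hbu]; simp
  have hu1 : u ∈ Metric.ball (0 : E) b.rOut := by
    rw [← b.support_normed_eq (μ := volume)]; exact hbu
  have h2 := hu (fun r hr => hΩ ?_)
  · have h3 : x + t • D - V - u = x - V - u + t • D := by abel
    rw [h3, h2]
  · have h4 := hx r hr
    rw [Metric.mem_ball, dist_eq_norm] at h4 ⊢
    rw [Metric.mem_ball, dist_zero_right] at hu1
    have h5 : x - V - u + (r * t) • D - (z - V) = (x + (r * t) • D - z) - u := by abel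
    rw [h5]
    exact (norm_sub_le _ _).trans_lt (by linarith)

omit [InnerProductSpace ℝ E] [FiniteDimensional ℝ E] [MeasurableSpace E] [BorelSpace E] in
theorem ball_segment [NormedSpace ℝ E] {z : E} {ρ : ℝ} {x D : E} {t s : ℝ}
    (hx : x ∈ Metric.ball z ρ) (hy : x + t • D ∈ Metric.ball z ρ) (hs0 : 0 ≤ s) (hst : s ≤ t) :
    x + s • D ∈ Metric.ball z ρ := by
  rcases eq_or_lt_of_le (hs0.trans hst) with ht | ht
  · have : s = 0 := le_antisymm (hst.trans ht.symm.le) hs0
    simpa [this] using hx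
  · have hconv := (convex_ball z ρ) hx hy (a := 1 - s / t) (b := s / t)
      (by rw [sub_nonneg, div_le_one ht]; exact hst) (by positivity) (by ring)
    have h1 : (1 - s / t) • x + (s / t) • (x + t • D) = x + s • D := by
      rw [smul_add, smul_smul, div_mul_cancel₀ _ ht.ne', sub_smul, one_smul]
      abel
    rwa [h1] at hconv

omit [FiniteDimensional ℝ E] [MeasurableSpace E] [BorelSpace E] in
/-- `f` grows at rate at least `κ` along `D` in the ball. -/
theorem grow {z : E} {ρ : ℝ} {f : E → ℝ} (hf : ContDiff ℝ 1 f) {D : E} {κ : ℝ}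
    (hκf : ∀ x ∈ Metric.ball z ρ, κ ≤ fderiv ℝ f x D) {x : E} {t : ℝ} (ht : 0 ≤ t)
    (hx : x ∈ Metric.ball z ρ) (hy : x + t • D ∈ Metric.ball z ρ) :
    f x + κ * t ≤ f (x + t • D) := by
  have hd : ∀ s : ℝ, HasDerivAt (fun s : ℝ => f (x + s • D)) (fderiv ℝ f (x + s • D) D) s := by
    intro s
    have h1 : HasFDerivAt f (fderiv ℝ f (x + s • D)) (x + s • D) :=
      (hf.differentiable (by simp) _).hasFDerivAt
    have h2 : HasDerivAt (fun r : ℝ => x + r • D) D s := by
      simpa using ((hasDerivAt_id s).smul_const D).const_add x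
    exact h1.comp_hasDerivAt s h2
  have h := Convex.mul_sub_le_image_sub_of_le_deriv (convex_Icc (0 : ℝ) t)
    (f := fun s : ℝ => f (x + s • D)) (C := κ)
    (fun s _ => (hd s).continuousAt.continuousWithinAt)
    (fun s _ => (hd s).differentiableAt.differentiableWithinAt)
    (fun s hs => by
      rw [interior_Icc] at hs
      rw [(hd s).deriv]
      exact hκf _ (ball_segment hx hy hs.1.le hs.2.le))
    0 (left_mem_Icc.2 ht) t (right_mem_Icc.2 ht) ht
  simp only [zero_smul, add_zero, sub_zero] at h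
  linarith

theorem vanish_core (Ω : Set E) (hΩo : IsOpen Ω) (h : E → E) (hh : Measurable h)
    (C : ℝ) (hC : ∀ x, ‖h x‖ ≤ C) (hh0 : ∀ x, x ∉ Ω → h x = 0)
    (hdivh : ∀ ψ : E → ℝ, Test ψ → ∫ x, fderiv ℝ ψ x (h x) = 0)
    (c : E → ℝ) (hc : Measurable c) (C' : ℝ) (hC' : ∀ x, |c x| ≤ C') (D : E)
    (hch : ∀ᵐ x : E, x ∈ Ω → c x ≠ 0 → h x = c x • D)
    (hdivc : ∀ ψ : E → ℝ, Test ψ → tsupport ψ ⊆ Ω → ∫ x, c x * fderiv ℝ ψ x D = 0)
    (z : E) (ρ₁ : ℝ) (hρ₁ : 0 < ρ₁) (f : E → ℝ) (hf : ContDiff ℝ 1 f) (hfz : f z = 0)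
    (hfΩ : ∀ x ∈ Metric.ball z ρ₁, (x ∈ Ω ↔ f x < 0)) (κ K : ℝ) (hκ : 0 < κ)
    (hκf : ∀ x ∈ Metric.ball z ρ₁, κ ≤ fderiv ℝ f x D)
    (hKf : ∀ x ∈ Metric.ball z ρ₁, ‖fderiv ℝ f x‖ ≤ K) :
    ∃ ρ > 0, ∀ᵐ x : E, x ∈ Ω → x ∈ Metric.ball z ρ → c x = 0 := by
  have hC'0 : 0 ≤ C' := (abs_nonneg _).trans (hC' 0)
  have hcinv := fun t => line_invariance Ω hΩo c hc C' hC' D hdivc t
  -- the shift
  set l : ℝ := ρ₁ / (2 * (‖D‖ + 1)) with hl
  have hD0 : 0 ≤ ‖D‖ := norm_nonneg D
  have hl0 : 0 < l := by positivity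
  have hlD : l * ‖D‖ < ρ₁ / 2 := by
    have h1 : l * (‖D‖ + 1) = ρ₁ / 2 := by rw [hl]; field_simp
    nlinarith
  set V : E := l • D with hV
  have hVn : ‖V‖ = l * ‖D‖ := by rw [hV, norm_smul, Real.norm_eq_abs, abs_of_pos hl0]
  have hzB : z ∈ Metric.ball z ρ₁ := Metric.mem_ball_self hρ₁
  have hz'B : z - V ∈ Metric.ball z ρ₁ := by
    rw [Metric.mem_ball, dist_eq_norm, sub_sub_cancel_left, norm_neg, hVn]
    linarith
  have hfz' : f (z - V) < 0 := by
    have h1 : z - V + l • D = z := by rw [hV]; abel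
    have := grow hf hκf hl0.le hz'B (by rw [h1]; exact hzB)
    rw [h1, hfz] at this
    nlinarith
  obtain ⟨r, hr0, hr⟩ := Metric.isOpen_iff.1
    ((isOpen_lt hf.continuous continuous_const (f := f) (g := fun _ => (0 : ℝ))).inter
      (Metric.isOpen_ball (x := z) (ε := ρ₁))) (z - V) ⟨hfz', hz'B⟩
  set ρ : ℝ := min (r / 2) (ρ₁ / 4) with hρ
  have hρ0 : 0 < ρ := by positivity
  have hρr : 2 * ρ ≤ r := by have := min_le_left (r / 2) (ρ₁ / 4); linarith
  have hρρ₁ : ρ ≤ ρ₁ / 4 := min_le_right _ _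
  have hBB : Metric.ball z ρ ⊆ Metric.ball z ρ₁ := Metric.ball_subset_ball (by linarith)
  have hΩ2 : Metric.ball (z - V) (2 * ρ) ⊆ Ω := by
    intro x hx
    have := hr (Metric.ball_subset_ball hρr hx)
    exact (hfΩ x this.2).2 this.1
  set a : E → ℝ := fun x => c (x - V) with ha
  have ha_meas : Measurable a := hc.comp (measurable_id.sub_const V)
  have ha_bd : ∀ x, |a x| ≤ C' := fun x => hC' _
  have hqm := (measurePreserving_sub_right (volume : Measure E) V).quasiMeasurePreserving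
  have hainv : ∀ t : ℝ, ∀ᵐ x : E, (∀ r ∈ Icc (0 : ℝ) 1, x + (r * t) • D ∈ Metric.ball z ρ) →
      a (x + t • D) = a x := by
    intro t
    filter_upwards [hqm.ae (hcinv t)] with x hx hxr
    have h1 := hx (fun r hr => hΩ2 ?_)
    · simp only [ha]
      rw [← h1]
      congr 1
      abel
    · have h2 := hxr r hr
      rw [Metric.mem_ball, dist_eq_norm] at h2 ⊢
      have h3 : x - V + (r * t) • D - (z - V) = x + (r * t) • D - z := by abel
      rw [h3]
      linarith
  have hac : ∀ᵐ x : E, x ∈ Metric.ball z ρ → x ∈ Ω → a x = c x := by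
    filter_upwards [hcinv (-l)] with x hx hxB hxΩ
    have h1 := hx (fun r hr => ?_)
    · simp only [ha, hV]
      rw [← h1]
      congr 1
      rw [neg_smul, sub_eq_add_neg]
    · have hxB₁ := hBB hxB
      have h2 : x + (r * -l) • D ∈ Metric.ball z ρ₁ := by
        rw [Metric.mem_ball, dist_eq_norm] at hxB ⊢
        have h3 : x + (r * -l) • D - z = (x - z) + (r * -l) • D := by abel
        rw [h3]
        refine (norm_add_le _ _).trans_lt ?_
        have h4 : ‖(r * -l) • D‖ ≤ l * ‖D‖ := by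
          rw [norm_smul, Real.norm_eq_abs, mul_neg, abs_neg, abs_of_nonneg (mul_nonneg hr.1 hl0.le)]
          refine mul_le_mul_of_nonneg_right ?_ hD0
          exact mul_le_of_le_one_left hl0.le hr.2
        linarith
      refine (hfΩ _ h2).2 ?_
      have h3 : x + (r * -l) • D + (r * l) • D = x := by
        rw [mul_neg, neg_smul]; abel
      have h4 := grow hf hκf (mul_nonneg hr.1 hl0.le) h2 (by rw [h3]; exact hxB₁)
      rw [h3] at h4
      have h5 := (hfΩ x hxB₁).1 hxΩ
      have h6 : 0 ≤ κ * (r * l) := mul_nonneg hκ.le (mul_nonneg hr.1 hl0.le)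
      linarith
  have hah : ∀ᵐ x : E, x ∈ Metric.ball z ρ → f x < 0 → a x ≠ 0 → h x = a x • D := by
    filter_upwards [hch, hac] with x h1 h2 hxB hfx hax
    have hxΩ := (hfΩ x (hBB hxB)).2 hfx
    have h3 := h2 hxB hxΩ
    rw [h3] at hax ⊢
    exact h1 hxΩ hax
  have hf0 : ∀ x ∈ Metric.ball z ρ, 0 ≤ f x → h x = 0 := fun x hx hfx =>
    hh0 x fun hxΩ => absurd ((hfΩ x (hBB hx)).1 hxΩ) (not_lt.2 hfx)
  -- the auxiliary function
  set v : E → ℝ := fun x => {x | 0 ≤ f x}.indicator (fun x => a x ^ 2) x with hv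
  have hfm : MeasurableSet {x | 0 ≤ f x} := (isClosed_le continuous_const hf.continuous).measurableSet
  have hv_meas : Measurable v := (ha_meas.pow_const 2).indicator hfm
  have hv_bd : ∀ x, |v x| ≤ C' ^ 2 := by
    intro x
    simp only [hv]
    by_cases hx : x ∈ {x | 0 ≤ f x}
    · rw [indicator_of_mem hx, abs_pow]
      exact pow_le_pow_left₀ (abs_nonneg _) (ha_bd x) 2
    · rw [indicator_of_notMem hx, abs_zero]
      positivity
  have hvdiv : ∀ ψ : E → ℝ, Test ψ → tsupport ψ ⊆ Metric.ball z ρ →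
      ∫ x, v x * fderiv ℝ ψ x D = 0 := by
    intro ψ hψ hψB
    have hψ1 : ContDiff ℝ 1 ψ := hψ.1.of_le (by exact_mod_cast le_top)
    obtain ⟨r', ⟨hr'0, hr'ρ⟩, hr'⟩ := exists_pos_lt_subset_ball hρ0 (isClosed_tsupport ψ) hψB
    obtain ⟨M₀, hM₀⟩ := hψ.1.continuous.bounded_above_of_compact_support hψ.2
    have hM₀0 : 0 ≤ M₀ := (norm_nonneg _).trans (hM₀ 0)
    let bb : ContDiffBump z := ⟨r', (r' + ρ) / 2, hr'0, by linarith⟩
    set ψ₀ : E → ℝ := fun x => M₀ * bb x with hψ₀
    have hψ₀1 : ContDiff ℝ 1 ψ₀ := contDiff_const.mul bb.contDiff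
    have hψ₀c : HasCompactSupport ψ₀ := bb.hasCompactSupport.mono fun x hx h => hx (by
      simp only [hψ₀, h, mul_zero])
    have hψ₀B : tsupport ψ₀ ⊆ Metric.ball z ρ := by
      have h1 : tsupport ψ₀ ⊆ tsupport bb := closure_mono fun x hx h => hx (by
        simp only [hψ₀, h, mul_zero])
      refine h1.trans ?_
      rw [bb.tsupport_eq]
      refine Metric.closedBall_subset_ball ?_
      change (r' + ρ) / 2 < ρ
      linarith
    have hψψ₀ : ∀ x, |ψ x| ≤ ψ₀ x := by
      intro x
      by_cases hx : ψ x = 0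
      · rw [hx, abs_zero]
        exact mul_nonneg hM₀0 bb.nonneg
      · have h1 : x ∈ Metric.closedBall z bb.rIn :=
          Metric.ball_subset_closedBall (hr' (subset_tsupport _ hx))
        simp only [hψ₀]
        rw [bb.one_of_mem_closedBall h1, mul_one]
        exact hM₀ x
    obtain ⟨M₁, hM₁⟩ := (hψ₀1.continuous_fderiv (by simp)).bounded_above_of_compact_support
      (hψ₀c.fderiv ℝ)
    let b : ℕ → ContDiffBump (0 : E) := fun n =>
      ⟨ρ / (n + 1) / 2, ρ / (n + 1), by positivity, by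
        have : 0 < ρ / ((n : ℝ) + 1) := by positivity
        linarith⟩
    have hbρ : ∀ n, (b n).rOut ≤ ρ := fun n => by
      change ρ / ((n : ℝ) + 1) ≤ ρ
      refine div_le_self hρ0.le ?_
      have : (0 : ℝ) ≤ n := Nat.cast_nonneg n
      linarith
    have hineq : ∀ n, |∫ x, v x * fderiv ℝ ψ x D| ≤
        (C * K / κ) * ((M₁ * ‖D‖) * ∫ x in Metric.ball z ρ, |moll (b n) c V x - a x|) := by
      intro n
      refine core_ineq f hf D κ K hκ (fun x hx => hκf x (hBB hx)) (fun x hx => hKf x (hBB hx))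
        h hh C hC (fun φ hφ hφc => div_zero_C1 h hh C hC hdivh φ hφ hφc) hf0 a ha_meas C' ha_bd
        hainv hah (moll (b n) c V) (moll_contDiff _ c hc C' hC' V) (moll_bdd _ c C' hC' V) ?_
        ψ hψ1 hψ.2 hψB ψ₀ hψ₀1 hψ₀c hψ₀B hψψ₀ (M₁ * ‖D‖) ?_
      · intro t
        exact Eventually.of_forall fun x hx =>
          moll_inv (b n) c V D z ρ Ω hcinv (hbρ n) hΩ2 t x hx
      · intro x
        exact ((fderiv ℝ ψ₀ x).le_opNorm D).trans
          (mul_le_mul_of_nonneg_right (hM₁ x) (norm_nonneg _))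
    have hlim : Tendsto (fun n => ∫ x in Metric.ball z ρ, |moll (b n) c V x - a x|) atTop
        (𝓝 0) := by
      have h0 : (0 : ℝ) = ∫ _ in Metric.ball z ρ, (0 : ℝ) := by simp
      rw [h0]
      refine tendsto_integral_of_dominated_convergence (fun _ => C' + C') ?_ ?_ ?_ ?_
      · intro n
        have h1 : Measurable fun x => |moll (b n) c V x - a x| := by
          simpa [Real.norm_eq_abs] using
            (((moll_contDiff (b n) c hc C' hC' V).continuous.measurable).sub ha_meas).norm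
        exact h1.aestronglyMeasurable
      · exact integrableOn_const Metric.isBounded_ball.measure_lt_top.ne
      · intro n
        refine Eventually.of_forall fun x => ?_
        rw [Real.norm_eq_abs, abs_abs]
        exact (abs_sub _ _).trans (add_le_add (moll_bdd _ c C' hC' V x) (ha_bd x))
      · refine ae_restrict_of_ae ?_
        have hrout : Tendsto (fun n => (b n).rOut) atTop (𝓝 0) := by
          change Tendsto (fun n : ℕ => ρ / ((n : ℝ) + 1)) atTop (𝓝 0)
          have := (tendsto_one_div_add_atTop_nhds_zero_nat (𝕜 := ℝ)).const_mul ρ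
          simpa [div_eq_mul_inv] using this
        have h1 := ContDiffBump.ae_convolution_tendsto_right_of_locallyIntegrable
          (μ := (volume : Measure E)) (K := 2) hrout (Eventually.of_forall fun n => by
            change ρ / ((n : ℝ) + 1) ≤ 2 * (ρ / ((n : ℝ) + 1) / 2)
            linarith) (locallyIntegrable_bdd c hc C' hC')
        filter_upwards [hqm.ae h1] with x hx
        have h2 := (hx.sub_const (a x)).abs
        simp only [ha, sub_self, abs_zero] at h2
        exact h2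
    have h1 := (hlim.const_mul (M₁ * ‖D‖)).const_mul (C * K / κ)
    rw [mul_zero, mul_zero] at h1
    have h2 := ge_of_tendsto' h1 hineq
    exact abs_nonpos_iff.1 h2
  -- conclusion
  have hvinv := fun t => line_invariance (Metric.ball z ρ) Metric.isOpen_ball v hv_meas (C' ^ 2)
    hv_bd D hvdiv t
  set t₀ : ℝ := ρ / (2 * (‖D‖ + 1)) with ht₀
  have ht₀0 : 0 < t₀ := by positivity
  have ht₀D : t₀ * ‖D‖ < ρ / 2 := by
    have h1 : t₀ * (‖D‖ + 1) = ρ / 2 := by rw [ht₀]; field_simp
    nlinarith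
  have hz₂B : z + t₀ • D ∈ Metric.ball z ρ₁ := by
    rw [Metric.mem_ball, dist_eq_norm, add_sub_cancel_left, norm_smul, Real.norm_eq_abs,
      abs_of_pos ht₀0]
    linarith
  have hfz₂ : 0 < f (z + t₀ • D) := by
    have := grow hf hκf ht₀0.le hzB hz₂B
    rw [hfz] at this
    have h2 : 0 < κ * t₀ := mul_pos hκ ht₀0
    linarith
  obtain ⟨r₂, hr₂0, hr₂⟩ := Metric.isOpen_iff.1
    (isOpen_lt continuous_const hf.continuous (f := fun _ => (0 : ℝ)) (g := f))
    (z + t₀ • D) hfz₂
  refine ⟨min r₂ (ρ / 2), by positivity, ?_⟩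
  filter_upwards [hvinv t₀, hainv t₀, hac] with x h1 h2 h3 hxΩ hxB
  have hxB' : x ∈ Metric.ball z (ρ / 2) := Metric.ball_subset_ball (min_le_right _ _) hxB
  have hxρ : x ∈ Metric.ball z ρ := Metric.ball_subset_ball (by linarith) hxB'
  have hseg : ∀ r ∈ Icc (0 : ℝ) 1, x + (r * t₀) • D ∈ Metric.ball z ρ := by
    intro r hr
    rw [Metric.mem_ball, dist_eq_norm] at hxB' ⊢
    have h5 : x + (r * t₀) • D - z = (x - z) + (r * t₀) • D := by abel
    rw [h5]
    refine (norm_add_le _ _).trans_lt ?_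
    have h6 : ‖(r * t₀) • D‖ ≤ t₀ * ‖D‖ := by
      rw [norm_smul, Real.norm_eq_abs, abs_of_nonneg (mul_nonneg hr.1 ht₀0.le)]
      exact mul_le_mul_of_nonneg_right (mul_le_of_le_one_left ht₀0.le hr.2) hD0
    linarith
  have hv1 : v x = 0 := by
    simp only [hv]
    refine indicator_of_notMem ?_ _
    have := (hfΩ x (hBB hxρ)).1 hxΩ
    simpa using this
  have hv2 : v (x + t₀ • D) = a (x + t₀ • D) ^ 2 := by
    simp only [hv]
    refine indicator_of_mem ?_ _
    have h7 : x + t₀ • D ∈ Metric.ball (z + t₀ • D) r₂ := by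
      rw [Metric.mem_ball, dist_add_right]
      exact lt_of_lt_of_le (Metric.mem_ball.1 hxB) (min_le_left _ _)
    exact (show (0 : ℝ) < f (x + t₀ • D) from hr₂ h7).le
  have h8 := h1 hseg
  rw [hv1, hv2, h2 hseg, h3 hxρ hxΩ] at h8
  exact pow_eq_zero_iff (two_ne_zero) |>.1 h8

theorem vanish_pos (R : Set E) (hR : IsClosed R) (h : E → E) (hh : Measurable h)
    (C : ℝ) (hC : ∀ x, ‖h x‖ ≤ C) (hh0 : ∀ x, x ∉ interior R → h x = 0)
    (hdivh : ∀ ψ : E → ℝ, Test ψ → ∫ x, fderiv ℝ ψ x (h x) = 0)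
    (c : E → ℝ) (hc : Measurable c) (C' : ℝ) (hC' : ∀ x, |c x| ≤ C') (D : E)
    (hch : ∀ᵐ x : E, x ∈ interior R → c x ≠ 0 → h x = c x • D)
    (hdivc : ∀ ψ : E → ℝ, Test ψ → tsupport ψ ⊆ interior R →
      ∫ x, c x * fderiv ℝ ψ x D = 0)
    (W : Set E) (hW : IsOpen W) (z : E) (hz : z ∈ frontier R) (hzW : z ∈ W) (f : E → ℝ)
    (hf : ContDiffOn ℝ 1 f W) (hfD : 0 < fderiv ℝ f z D) (hfR : ∀ x ∈ W, (x ∈ R ↔ f x ≤ 0)) :
    ∃ W' : Set E, IsOpen W' ∧ z ∈ W' ∧ ∀ᵐ x : E, x ∈ interior R → x ∈ W' → c x = 0 := by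
  obtain ⟨r₀, hr₀0, hr₀⟩ := Metric.isOpen_iff.1 hW z hzW
  let χ : ContDiffBump z := ⟨r₀ / 4, r₀ / 2, by positivity, by linarith⟩
  set F : E → ℝ := fun x => χ x * f x with hF
  have hχts : tsupport χ ⊆ W := by
    rw [χ.tsupport_eq]
    refine (Metric.closedBall_subset_ball ?_).trans hr₀
    change r₀ / 2 < r₀
    linarith
  have hFc : ContDiff ℝ 1 F := by
    rw [contDiff_iff_contDiffAt]
    intro x
    by_cases hx : x ∈ tsupport χ
    · exact χ.contDiff.contDiffAt.mul (hf.contDiffAt (hW.mem_nhds (hχts hx)))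
    · have h1 : ∀ᶠ y in 𝓝 x, F y = 0 := by
        filter_upwards [(isClosed_tsupport χ).isOpen_compl.mem_nhds hx] with y hy
        simp only [hF]
        rw [image_eq_zero_of_notMem_tsupport hy, zero_mul]
      exact contDiffAt_const.congr_of_eventuallyEq h1
  have hFf : ∀ x ∈ Metric.ball z (r₀ / 4), F x = f x := by
    intro x hx
    simp only [hF]
    rw [χ.one_of_mem_closedBall (Metric.ball_subset_closedBall hx), one_mul]
  have hfd : fderiv ℝ F z = fderiv ℝ f z := by
    refine Filter.EventuallyEq.fderiv_eq ?_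
    filter_upwards [Metric.ball_mem_nhds z (show 0 < r₀ / 4 by positivity)] with x hx
    exact hFf x hx
  have hFd : Continuous (fderiv ℝ F) := hFc.continuous_fderiv (by simp)
  set κ := fderiv ℝ f z D / 2 with hκ
  have hκ0 : 0 < κ := by positivity
  have hop : IsOpen {x : E | κ < fderiv ℝ F x D ∧ ‖fderiv ℝ F x‖ < ‖fderiv ℝ F z‖ + 1} :=
    (isOpen_lt continuous_const (hFd.clm_apply continuous_const)).inter
      (isOpen_lt hFd.norm continuous_const)
  obtain ⟨r₁, hr₁0, hr₁⟩ := Metric.isOpen_iff.1 hop z ⟨by rw [hfd, hκ]; linarith, by linarith⟩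
  set ρ₁ := min r₁ (r₀ / 4) with hρ₁
  have hρ₁0 : 0 < ρ₁ := by positivity
  have hκf : ∀ x ∈ Metric.ball z ρ₁, κ ≤ fderiv ℝ F x D := fun x hx =>
    (hr₁ (Metric.ball_subset_ball (min_le_left _ _) hx)).1.le
  have hKf : ∀ x ∈ Metric.ball z ρ₁, ‖fderiv ℝ F x‖ ≤ ‖fderiv ℝ F z‖ + 1 := fun x hx =>
    (hr₁ (Metric.ball_subset_ball (min_le_left _ _) hx)).2.le
  have hFR : ∀ x ∈ Metric.ball z ρ₁, (x ∈ R ↔ F x ≤ 0) := by
    intro x hx
    have h1 : x ∈ Metric.ball z (r₀ / 4) := Metric.ball_subset_ball (min_le_right _ _) hx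
    rw [hFf x h1]
    exact hfR x (hr₀ (Metric.ball_subset_ball (by linarith) h1))
  have hFΩ : ∀ x ∈ Metric.ball z ρ₁, (x ∈ interior R ↔ F x < 0) := by
    intro x hx
    constructor
    · intro hxR
      have hcont : Continuous fun t : ℝ => x + t • D := by fun_prop
      have h1 : ∀ᶠ t : ℝ in 𝓝 0, x + t • D ∈ interior R ∩ Metric.ball z ρ₁ := by
        refine hcont.continuousAt.eventually ((isOpen_interior.inter Metric.isOpen_ball).mem_nhds ?_)
        simpa using ⟨hxR, hx⟩
      obtain ⟨t, ht, ht0⟩ := ((h1.filter_mono nhdsWithin_le_nhds).and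
        (self_mem_nhdsWithin (a := (0 : ℝ)) (s := Ioi 0))).exists
      have h2 := grow hFc hκf (le_of_lt ht0) hx ht.2
      have h3 := (hFR _ ht.2).1 (interior_subset ht.1)
      have h4 : 0 < κ * t := mul_pos hκ0 ht0
      linarith
    · intro hxF
      refine mem_interior.2 ⟨{y | F y < 0} ∩ Metric.ball z ρ₁, ?_, ?_, hxF, hx⟩
      · intro y hy
        exact (hFR y hy.2).2 (le_of_lt hy.1)
      · exact (isOpen_lt hFc.continuous continuous_const).inter Metric.isOpen_ball
  have hzB : z ∈ Metric.ball z ρ₁ := Metric.mem_ball_self hρ₁0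
  have hFz : F z = 0 := by
    have h1 : z ∈ R := hR.frontier_subset hz
    have h2 : z ∉ interior R := hz.2
    have h3 := (hFR z hzB).1 h1
    rw [hFΩ z hzB] at h2
    linarith
  obtain ⟨ρ, hρ0, hρ⟩ := vanish_core (interior R) isOpen_interior h hh C hC hh0 hdivh c hc C' hC' D
    hch hdivc z ρ₁ hρ₁0 F hFc hFz hFΩ κ (‖fderiv ℝ F z‖ + 1) hκ0 hκf hKf
  exact ⟨Metric.ball z ρ, Metric.isOpen_ball, Metric.mem_ball_self hρ0, hρ⟩

/-- Module BLOW. -/
theorem vanish_near_boundary (R : Set E) (hR : IsClosed R) (h : E → E) (hh : Measurable h)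
    (C : ℝ) (hC : ∀ x, ‖h x‖ ≤ C) (hh0 : ∀ x, x ∉ interior R → h x = 0)
    (hdivh : ∀ ψ : E → ℝ, Test ψ → ∫ x, fderiv ℝ ψ x (h x) = 0)
    (c : E → ℝ) (hc : Measurable c) (C' : ℝ) (hC' : ∀ x, |c x| ≤ C') (D : E)
    (hch : ∀ᵐ x : E, x ∈ interior R → c x ≠ 0 → h x = c x • D)
    (hdivc : ∀ ψ : E → ℝ, Test ψ → tsupport ψ ⊆ interior R →
      ∫ x, c x * fderiv ℝ ψ x D = 0)
    (W : Set E) (hW : IsOpen W) (z : E) (hz : z ∈ frontier R) (hzW : z ∈ W) (f : E → ℝ)
    (hf : ContDiffOn ℝ 1 f W) (hfD : fderiv ℝ f z D ≠ 0) (hfR : ∀ x ∈ W, (x ∈ R ↔ f x ≤ 0)) :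
    ∃ W' : Set E, IsOpen W' ∧ z ∈ W' ∧ ∀ᵐ x : E, x ∈ interior R → x ∈ W' → c x = 0 := by
  rcases lt_or_gt_of_ne hfD with hneg | hpos
  · obtain ⟨W', h1, h2, h3⟩ := vanish_pos R hR h hh C hC hh0 hdivh (fun x => -c x) hc.neg C'
      (fun x => by rw [abs_neg]; exact hC' x) (-D)
      (by
        filter_upwards [hch] with x hx hxR hcx
        rw [smul_neg, neg_smul, neg_neg]
        exact hx hxR (fun h => hcx (by rw [h, neg_zero])))
      (fun ψ hψ hψR => by
        rw [← hdivc ψ hψ hψR]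
        congr 1
        funext x
        rw [map_neg]
        ring)
      W hW z hz hzW f hf (by rw [map_neg]; linarith) hfR
    refine ⟨W', h1, h2, ?_⟩
    filter_upwards [h3] with x hx hxR hxW
    exact neg_eq_zero.1 (hx hxR hxW)
  · exact vanish_pos R hR h hh C hC hh0 hdivh c hc C' hC' D hch hdivc W hW z hz hzW f hf hpos hfR

end Helper20.Dimer
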